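import Pool.Agent.T6.H74.TS.Odd

/-!
# `φ(k²+1) = k φ(k+1)` for odd `k` with `φ(k+1) ≥ (k-1)/2`
-/

set_option autoImplicit false

namespace Pool.Agent.Results.MP_9310ca_nt.OddLargeTotient

/-- If `k` is odd, `φ(k²+1) = k φ(k+1)` and `φ(k+1) ≥ (k-1)/2`, then `k = 1`. -/
theorem result (k : ℕ) (h : (k ^ 2 + 1).totient = k * (k + 1).totient) (hodd : Odd k)
    (hk : k ≤ 2 * (k + 1).totient + 1) : k = 1 :=
  Pool.Agent.T6.H74.TS.odd_case k h hodd hk

end Pool.Agent.Results.MP_9310ca_nt.OddLargeTotient
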