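import Pool.Agent.T6.H74.TS.Main

/-!
# `φ(k²+1) = k φ(k+1)` when `k² + 1` has at most two prime factors
-/

set_option autoImplicit false

namespace Pool.Agent.Results.MP_9310ca_nt.TwoPrimeFactors

/-- If `φ(k²+1) = k φ(k+1)` and `k² + 1` is a product of at most two primes, then `k + 1` is prime
or `k = 8`. -/
theorem result (k : ℕ) (h : (k ^ 2 + 1).totient = k * (k + 1).totient)
    (hl : (k ^ 2 + 1).primeFactorsList.length ≤ 2) : (k + 1).Prime ∨ k = 8 :=
  Pool.Agent.T6.H74.TS.main k h hl

end Pool.Agent.Results.MP_9310ca_nt.TwoPrimeFactors
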